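import Pool.Agent.N858.DS.Final3

set_option autoImplicit false

open Pool.Agent.W432.PC Pool.Agent.W432.TC Pool.Agent.Y227.SS
open Pool.Agent.N858.PC Pool.Agent.N858.R3 Pool.Agent.N858.DS

/-!
# Irreducible systems on the thrice punctured line with index of rigidity at least zero

Proof. If the `p`-curvatures vanish too often, all the conjugates `a e`, `a` prime to `N`, of the
exponents `e x l` are the weights of stable parabolic bundles of degree zero (starting results). Let `δ`
be the difference of two exponents `k`, `k'` at the point `x` which are not congruent modulo the
integers, let `d` be its denominator, and choose an exponent at every other point except `z`. Let `a δ`
be `1 / d` modulo the integers. The inequalities of stability for line subbundles, for `a` and for `-a`,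
say that at most `(s - 1) r` of the conjugate exponents (`s` is the number of points) are at `x` in the
arc from `a e x k` to `a e x k'`, at `z` in an arc of the length `1 - 1 / d` and at the other points in
the class of the chosen exponent. So
`mult x k + mult x k' + ∑ mult y ≤ (s - 2) r` (*), if no exponent at `z` is in the complementary open arc
of the length `1 / d`. An exponent at `z` can be in this arc only if its sum `D` with the chosen
exponents has a denominator which does not divide `d`. Let `P` be a prime power which divides the
denominator of `d D`: there are units `1 + i w` with `(1 + i w) δ = δ` such that `a (1 + i w) D` runs
through all the numbers `a D + i / P`, `i = 0, ..., P - 1`, at most `P / p` of the numbers `1 + i w` not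
being units. At most `P / d`, rounded up, of these numbers are in the arc. So this exponent is in the
short arc for a proportion less than `1 / r` of all `a` if `r ⌈P / d⌉ < φ(P)`, and some `a` is good for
all the exponents at `z`. This is
(*), for all choices. The inequalities (*) imply that the index of rigidity is negative, except if
there are three points with all multiplicities `r / 3`, or four with all multiplicities `r / 2`: let `z`
be the point with the smallest largest multiplicity `μ` and `u` the bound given by (*) for the second
largest multiplicities, then the sum of the squares of the multiplicities is at most
`(s - 2) r ^ 2 - u (μ - u)` if `u ≤ μ`, and less than `(s - 2) r ^ 2` if `u > μ`.

For differences without prime factors `≤ B` (`B` not effective) the same argument is applied to the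
torus which is the closure of the conjugates, with a parameter just above `1 / P`, `P` the difference
of two entries of a generic direction of the torus.

Multiplicities `r / 3` at all points, `r > 3`. Three matrices with sum zero and without a common
invariant subspace which satisfy cubic equations have rank at most four: the algebra generated by them
(a deformed preprojective algebra of type `E6~`) has central elements over which it is generated by few
elements, and Burnside's theorem applies. If no two exponents at a point differ by a nonzero integer
(`NoShift`) and the `p`-curvatures vanish often, the residues satisfy such equations. If the
differences have no prime factors `≤ B`, there is a conjugate for which the exponents at each point are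
nearly equal modulo the integers. Then, after a change of the lattices at the points, the bundle
underlying the stable parabolic bundle is trivial, and the space of its sections with the filtrations at
the points is stable. By Schur's lemma and duality there are matrices with sum zero, one for each point,
which preserve the filtrations and act on the graded parts by arbitrary rational numbers with total trace
zero; if these numbers are generic, the matrices have no common invariant subspace.

(Parts of the proof for exceptional types are due to helpers 439, 458, 602, 767, 287, 744, 402, 316, 710
and 51.)
-/

namespace Pool.Agent.Results.MP_5e5ff1_ag.IndexNonnegative

universe u

/-- Irreducible systems on the thrice punctured line, of any rank, with index of rigidity at least zero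
or with large multiplicities.

For every rank `r ≥ 2` there are `ε > 0` and `B` with the following property. Let
`∇ = d/dt - (b / t + c / (t - 1))` be an absolutely irreducible system of rank `r` over a domain `R` of
characteristic zero and of finite type over `ℤ`, with rational exponents `lam 0 l` at `0` (the
eigenvalues of `b`), `lam 1 l` at `1` (the eigenvalues of `c`) and `lam 2 l` at infinity (the eigenvalues
of `-(b + c)`), of common denominator `N`. The accessory parameters are arbitrary. Assume

* (denominators) one of the following: (`RoughSums`) the differences of exponents at the same point and
the sums of exponents, one for each point, have a common denominator all of whose prime factors are
greater than `2 r`; or, more generally, (`MildDen`) if `δ` is the difference of two exponents at a point,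
not an integer, of denominator `d`, and `D` is a sum of exponents, one for each point, including the second
of the two, then `d D` is an integer or its denominator is divisible by a prime power `P` for which
`r ⌈P / d⌉ < φ(P)` (this holds for example if the differences and the sums have a common denominator
which is a prime number); or (`Rough`) the differences alone have a common denominator without prime
factors `≤ B`;

* (multiplicities) that (`LargeMult`) there are two exponents at one point, not congruent modulo the
integers, and an exponent at another point, whose multiplicities modulo the integers have a sum greater
than `r`; or that the index of rigidity, computed from the multiplicities, is at least zero, i.e. the sum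
of the squares of the multiplicities at the three points is at least `r ^ 2` (`IndexNonneg`). If all the
multiplicities at the three points are `r / 3` (`ExcType`), we assume in addition that `r > 3` and that
one of the following two conditions holds: the differences have a common denominator without prime
factors `≤ B` (`Rough`), or no two exponents at the same point differ by a nonzero integer (`NoShift`).

Then for a proportion at least `ε` of the residue classes modulo `N` the `p`-curvature is nonzero at
every closed point of the open set `g ≠ 0` of `Spec R` (`g` is a nonzero element of `R`) whose residue
characteristic is a large prime in one of these classes; in particular the `p`-curvatures do not vanish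
on a dense open subset of `Spec R`. -/
theorem result (r : ℕ) (hr : 1 < r) :
    ∃ (ε : ℝ) (B : ℕ), 0 < ε ∧
      ∀ (R : Type u) [CommRing R] [IsDomain R] [CharZero R] [Algebra.FiniteType ℤ R]
        (b c : Matrix (Fin r) (Fin r) R) (lam : Fin 3 → Fin r → ℚ) (N : ℕ),
        AbsIrreducible (![0, 1] : Fin 2 → R) ![b, c] →
        HasExponents b (lam 0) → HasExponents c (lam 1) →
        HasExponents (b + c) (fun l => -lam 2 l) →
        0 < N → (∀ j l, ∃ m : ℤ, (N : ℚ) * lam j l = m) →
        (RoughSums (2 * r) lam ∨ MildDen lam ∨ Rough B lam) →
        (LargeMult lam ∨ (IndexNonneg lam ∧
          (¬ ExcType lam ∨ (3 < r ∧ (Rough B lam ∨ NoShift lam))))) →
          (∃ g : R, g ≠ 0 ∧ BadClasses ![0, 1] ![b, c] N ε g) ∧ ¬ CondII ![0, 1] ![b, c] :=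
  index_thrice4 r hr

end Pool.Agent.Results.MP_5e5ff1_ag.IndexNonnegative
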