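import Pool.Agent.N858.R3.Final3

set_option autoImplicit false

open Pool.Agent.W432.PC Pool.Agent.W432.TC Pool.Agent.Y227.SS
open Pool.Agent.N858.PC Pool.Agent.N858.R4 Pool.Agent.N858.R3

/-!
# Systems of rank three on the thrice punctured line: the exponents split

Proof. If the `p`-curvatures vanish too often, all the conjugates of the exponents are the weights of
semistable parabolic bundles of degree zero. For rough denominators the conjugates are dense in a
torus `T`, so all the points of `T` satisfy, for every exponent `k` at every point `x`, the quadratic
inequality `D_k ≥ 0` which follows from the inequalities of Lidskii (a combination of values of the
second Bernoulli function). Let `t ↦ t v` be a generic one-parameter subgroup of `T`; so `v` consists of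
three triples `f`, `g`, `h` of integers with sum zero, and a sum of three exponents is an integer if and
only if the sum of the three integers is zero. It is to be shown that there are two disjoint sums
`f i + g j + h k = 0`; the third follows from the trace.

If two of the numbers in `f` agree, this follows from the mean of `D_k` over all `t` for the double
exponent `k`. If the numbers in each of the three triples are distinct and there is no zero sum with
`f k`, the mean of `D_k` over all `t` vanishes, so `D_k` vanishes identically. This implies
`|f k + g i + h j| ≤ R` if `R` is a bound for the spreads, a relation between multiplicities in every
cyclic group `(1 / M) ℤ / ℤ`, and the linear identity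
`Σ |f i - f j| + 2 Σ |f k + g i + h j| = Σ |g i - g j| + Σ |h i - h j| + 6 Σ |f k - f l|`.
Let `f` be the triple with the largest spread `P`. With `M = P` one finds that the two extreme numbers
in `f` are on zero sums. If these two sums are not disjoint, the linear identity shows that the third
number in `f` is on a zero sum as well, and in the one remaining case (all three sums contain the same
`g i`) the bound shows that another number in `g` is on a zero sum.
-/

namespace Pool.Agent.Results.MP_5e5ff1_ag.RankThreeDecomposition

universe u

/-- Systems of rank three on the thrice punctured line with rough denominators: if the `p`-curvatures
vanish, then the exponents are those of a direct sum of three systems of rank one.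

There are `ε > 0` and `B` with the following property. Let `∇ = d/dt - (b / t + c / (t - 1))` be a
system of rank three over a domain `R` of characteristic zero and of finite type over `ℤ`, with
rational exponents `lam 0 l` at `0` (the eigenvalues of `b`), `lam 1 l` at `1` (the eigenvalues of `c`)
and `lam 2 l` at infinity (the eigenvalues of `-(b + c)`), of common denominator `N`. Assume that the
differences of the exponents at every point have a common denominator without prime factors `≤ B`
(`Rough`). There is no assumption on the spectral type, on the accessory parameters and on
irreducibility. Then one of the following holds.

(a) `Decomposes`: for suitable numberings `σ x` of the three exponents at each of the three points `x`,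
the three sums `∑ x, lam x (σ x l)`, `l = 0, 1, 2`, of exponents with the same number are integers. That
is, modulo the integers the exponents are those of a direct sum of three systems of rank one with finite
monodromy. (If the monodromy is finite this holds for rough denominators by Jordan's theorem, since the
monodromy group is then abelian.)

(b) For a proportion at least `ε` of the residue classes modulo `N` the `p`-curvature is nonzero at
every closed point of `Spec R` whose residue characteristic is a large prime in one of these
classes; in particular the `p`-curvatures do not vanish on a dense open subset of `Spec R`. -/
theorem result :
    ∃ (ε : ℝ) (B : ℕ), 0 < ε ∧
      ∀ (R : Type u) [CommRing R] [IsDomain R] [CharZero R] [Algebra.FiniteType ℤ R]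
        (b c : Matrix (Fin 3) (Fin 3) R) (lam : Fin 3 → Fin 3 → ℚ) (N : ℕ),
        HasExponents b (lam 0) → HasExponents c (lam 1) →
        HasExponents (b + c) (fun l => -lam 2 l) →
        0 < N → (∀ j l, ∃ m : ℤ, (N : ℚ) * lam j l = m) → Rough B lam →
        Decomposes lam ∨ (BadClasses ![0, 1] ![b, c] N ε 1 ∧ ¬ CondII ![0, 1] ![b, c]) :=
  dec_thrice 3 (by norm_num) dec3

end Pool.Agent.Results.MP_5e5ff1_ag.RankThreeDecomposition
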