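import Pool.Agent.N858.R3.FinIrr

set_option autoImplicit false

open Pool.Agent.W432.PC Pool.Agent.W432.TC Pool.Agent.Y227.SS
open Pool.Agent.N858.PC Pool.Agent.N858.R4 Pool.Agent.N858.R3

/-!
# Irreducible systems of rank three on the thrice punctured line

Proof. If the `p`-curvatures vanish too often, all the conjugates of the exponents are the weights of
stable parabolic bundles of degree zero. For rough denominators the conjugates are dense in a torus `T`,
and the exponents split into three integral sums (`RankThreeDecomposition`). Let `v`, three triples of
integers, be a generic direction in `T`, and `t` a real number such that no nonzero difference `v x i -
v x j`, multiplied by `t`, is an integer. Every integral sum of three exponents (numbers `κ x`) gives a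
zero sum of the `v x (κ x)`, and stability of the conjugates close to `t v` (line subbundles) gives
`∑ x, ∑ l, ⌊t (v x l - v x (κ x))⌋ + 3 ≤ 0`. For small positive and small negative `t` it follows that
exactly three of the six other numbers are smaller and exactly three are larger; so the numbers in each
triple are distinct, and the three zero sums consist of a smallest, a middle and a largest number, in
the cyclic order. Let `P` be the largest spread of the triples and let `t` be just above `1 / P`: then
the three inequalities are possible only if all three spreads are equal to `P`, and the three zero sums
show that the gaps of the triples agree. Since `v` is generic, the differences of the exponents agree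
modulo the integers.
-/

namespace Pool.Agent.Results.MP_5e5ff1_ag.RankThreeIrreducible

universe u

/-- Irreducible systems of rank three on the thrice punctured line with rough denominators: if the
`p`-curvatures vanish, then the exponents at the three points agree modulo the integers, up to their
order and up to shifts.

There are `ε > 0` and `B` with the following property. Let `∇ = d/dt - (b / t + c / (t - 1))` be an
absolutely irreducible system of rank three over a domain `R` of characteristic zero and of finite type
over `ℤ`, with rational exponents `lam 0 l` at `0` (the eigenvalues of `b`), `lam 1 l` at `1` (the
eigenvalues of `c`) and `lam 2 l` at infinity (the eigenvalues of `-(b + c)`), of common denominator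
`N`. Assume that the differences of the exponents at every point have a common denominator without
prime factors `≤ B` (`Rough`). There is no assumption on the spectral type and on the accessory
parameters. Then one of the following holds.

(a) `SameTriples`: the three exponents at each of the three points are not congruent to one another
modulo the integers, and for suitable numberings `τ x` of the exponents at the points `x` the
differences `lam x (τ x l) - lam x (τ x l')` of the exponents with the numbers `l`, `l'` are modulo the
integers the same for the three points `x`.

(b) For a proportion at least `ε` of the residue classes modulo `N` the `p`-curvature is nonzero at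
every closed point of the open set `g ≠ 0` of `Spec R` (`g` is a nonzero element of `R`) whose residue
characteristic is a large prime in one of these classes; in particular the `p`-curvatures do not vanish
on a dense open subset of `Spec R`. -/
theorem result :
    ∃ (ε : ℝ) (B : ℕ), 0 < ε ∧
      ∀ (R : Type u) [CommRing R] [IsDomain R] [CharZero R] [Algebra.FiniteType ℤ R]
        (b c : Matrix (Fin 3) (Fin 3) R) (lam : Fin 3 → Fin 3 → ℚ) (N : ℕ),
        AbsIrreducible (![0, 1] : Fin 2 → R) ![b, c] →
        HasExponents b (lam 0) → HasExponents c (lam 1) →
        HasExponents (b + c) (fun l => -lam 2 l) →
        0 < N → (∀ j l, ∃ m : ℤ, (N : ℚ) * lam j l = m) → Rough B lam →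
        SameTriples lam id ∨
          ((∃ g : R, g ≠ 0 ∧ BadClasses ![0, 1] ![b, c] N ε g) ∧ ¬ CondII ![0, 1] ![b, c]) :=
  same_thrice

end Pool.Agent.Results.MP_5e5ff1_ag.RankThreeIrreducible
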