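import Pool.Agent.N858.R4.Final

set_option autoImplicit false

open Pool.Agent.W432.PC Pool.Agent.W432.TC Pool.Agent.Y227.SS
open Pool.Agent.N858.PC Pool.Agent.N858.R4

/-!
# Systems on the thrice punctured line: all spectral types of rank at most four

Proof. If the `p`-curvatures vanish too often, all the conjugates of the exponents are the weights of
semistable parabolic bundles of degree zero. For rough denominators the conjugates are dense in a
torus `T` (the connected annihilator of the relations of the exponents), so all the points of `T`
satisfy the inequalities for line subbundles and, for every exponent `k` at every point `x`, the
quadratic inequality which follows from the inequalities of Lidskii. Take a generic one-parameter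
subgroup `t ↦ t v` of `T`, `v` a vector of integers without relations not satisfied by `T`. Assume that
there is no resonance. Let `P` be the largest difference of two components of `v` at the same point,
`x` say, and `k` the index of the smallest component at `x`. The inequalities for line subbundles near
`t = 0` show that `P` divides no sum of `v x k` and of components at the two other points. But then the
mean of the quadratic inequality over the cyclic group `t ∈ (1 / P) ℤ / ℤ` (with the weights which make
the second Bernoulli function orthogonal to all the nontrivial characters) is violated: in this group
the smallest and the largest component at `x` agree, which increases the multiplicity of `k`.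
-/

namespace Pool.Agent.Results.MP_5e5ff1_ag.ThreePointResonance

universe u

/-- Systems on the thrice punctured line with rough denominators: every spectral type of rank at most
four, and in any rank the spectral types which satisfy an inequality between the multiplicities.

For every rank `r > 0` there are `ε > 0` and `B` with the following property. Let
`∇ = d/dt - (b / t + c / (t - 1))` be a system of rank `r` over a domain `R` of characteristic zero and
of finite type over `ℤ`, with rational exponents `lam 0 l` at `0` (the eigenvalues of `b`), `lam 1 l` at
`1` (the eigenvalues of `c`) and `lam 2 l` at infinity (the eigenvalues of `-(b + c)`), of common
denominator `N`. Assume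

* that the differences of the exponents at every point have a common denominator without prime factors
  `≤ B` (`Rough`), and

* that `r ≤ 4`, or that the multiplicities of the exponents (`mult`, counted modulo `ℤ`; `pairs` is the
  number of the ordered pairs of congruent exponents at a point) satisfy `MultCond`: either
  `r ^ 2 + pairs x < pairs y + pairs z + 2 r m` for an exponent of multiplicity `m` at a point `x`
  (`y`, `z` are the two other points), or
  `r ^ 2 + pairs x + 2 m m' < pairs y + pairs z + 2 r (m + m')` for all the points `x` and all the pairs
  of noncongruent exponents at `x`, of multiplicities `m`, `m'`.

There is no assumption on the accessory parameters and on irreducibility. Then one of the following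
holds.

(a) `Resonant`: some sum of three exponents, one at each point, is an integer.

(b) For a proportion at least `ε` of the residue classes modulo `N` the `p`-curvature is nonzero at
every closed point of `Spec R` whose residue characteristic is a large prime in one of these
classes; in particular the `p`-curvatures do not vanish on a dense open subset of `Spec R`. -/
theorem result (r : ℕ) (hr : 0 < r) :
    ∃ (ε : ℝ) (B : ℕ), 0 < ε ∧
      ∀ (R : Type u) [CommRing R] [IsDomain R] [CharZero R] [Algebra.FiniteType ℤ R]
        (b c : Matrix (Fin r) (Fin r) R) (lam : Fin 3 → Fin r → ℚ) (N : ℕ),
        HasExponents b (lam 0) → HasExponents c (lam 1) →
        HasExponents (b + c) (fun l => -lam 2 l) →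
        0 < N → (∀ j l, ∃ m : ℤ, (N : ℚ) * lam j l = m) →
        Rough B lam → (r ≤ 4 ∨ MultCond lam id) →
        Resonant lam ∨ (BadClasses ![0, 1] ![b, c] N ε 1 ∧ ¬ CondII ![0, 1] ![b, c]) :=
  three_thrice r hr

end Pool.Agent.Results.MP_5e5ff1_ag.ThreePointResonance
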